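import Pool.Agent.Helper83.SU.St

/-! Assembly of project SU (MP_f663dd_lc). -/

set_option autoImplicit false

namespace Pool.Agent.Helper83.SU
open Cardinal Set Pool.Agent.Helper83.CK
universe u

/-- `l` is the least cardinal `≥ k` with `l → [k]^ω_k`. -/
def Least (l k : Cardinal.{u}) : Prop :=
  k ≤ l ∧ ¬ NegRel l k ∧ ∀ l', k ≤ l' → l' < l → NegRel l' k

/-- weakly inaccessible (a regular limit cardinal; uncountable in all uses below) -/
def WInacc (c : Cardinal.{u}) : Prop := c.IsRegular ∧ ∀ x < c, Order.succ x < c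

/-- strongly inaccessible (regular strong limit; uncountable in all uses below) -/
def SInacc (c : Cardinal.{u}) : Prop := c.IsRegular ∧ ∀ x < c, 2 ^ x < c

theorem negRel_self (k : Cardinal.{u}) (hk : ℵ₀ ≤ k) : NegRel k k := by
  have hK : ℵ₀ ≤ #k.ord.ToType := by rw [mk_ord_toType]; exact hk
  obtain ⟨H, hH⟩ := tH k.ord.ToType hK
  refine ⟨H, fun X hX => ?_⟩
  apply Set.eq_univ_of_forall
  intro c
  obtain ⟨s, hs, h1, h2⟩ := hH X (by rw [hX, mk_ord_toType]) c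
  exact ⟨s, ⟨hs, h1⟩, h2⟩

theorem exists_least (k l : Cardinal.{u}) (h : k ≤ l) (hn : ¬ NegRel l k) :
    ∃ l₀ ≤ l, Least l₀ k := by
  classical
  have hS : ({x : Cardinal.{u} | k ≤ x ∧ ¬ NegRel x k}).Nonempty := ⟨l, h, hn⟩
  have wf : WellFounded ((· < ·) : Cardinal.{u} → Cardinal.{u} → Prop) := wellFounded_lt
  refine ⟨wf.min _ hS, not_lt.1 (wf.not_lt_min _
    (show l ∈ {x : Cardinal.{u} | k ≤ x ∧ ¬ NegRel x k} from ⟨h, hn⟩)), ?_, ?_, ?_⟩
  · exact (wf.min_mem _ hS).1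
  · exact (wf.min_mem _ hS).2
  · intro l' h1 h2
    by_contra h3
    exact wf.not_lt_min _ (show l' ∈ {x : Cardinal.{u} | k ≤ x ∧ ¬ NegRel x k} from ⟨h1, h3⟩) h2

theorem least_props (hDM : StDM.{u}) (hKU : StKU.{u}) (hPW : StPW.{u}) (hSL : StSL.{u})
    (hLS : StLS.{u}) (hSG : StSG.{u}) (hSQ : StSQ.{u}) (k l : Cardinal.{u}) (hk : k.IsRegular)
    (h : Least l k) :
    𝔠 < k ∧ k < l ∧ l.IsRegular ∧
    (∀ (S : Type u) (F : Set (Set S)), #S < l →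
      (∀ B : Set S, #B < k → #((fun X => X ∩ B) '' F) < k) → #F < l) ∧
    (∀ τ θ : Cardinal.{u}, τ < l → ℵ₀ ≤ θ → (∀ ρ < k, ρ ^ θ < k) → τ ^ θ < l) ∧
    ((∀ c < k, Order.succ c < k) → ∀ c < l, Order.succ c < l) ∧
    ((∀ c < k, 2 ^ c < k) → ∀ c < l, 2 ^ c < l) ∧
    ¬ Sq k l := by
  obtain ⟨h1, h2, h3⟩ := h
  have hk0 : ℵ₀ ≤ k := hk.aleph0_le
  have hck : 𝔠 < k := by
    by_contra hcon
    apply h2
    rw [negRel_iff]
    exact tS _ _ (by rw [mk_ord_toType]; exact hk0) (by rw [mk_ord_toType]; exact not_lt.1 hcon)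
  have hkl : k < l := by
    refine lt_of_le_of_ne h1 ?_
    rintro rfl
    exact h2 (negRel_self k hk0)
  have hreg : l.IsRegular := by
    by_contra hcon
    exact h2 (hSG k l hk hkl hcon h3)
  have key : ∀ m : Cardinal.{u}, NegRel m k → m < l := by
    intro m hm
    by_contra hcon
    exact h2 (hDM k l m (not_lt.1 hcon) hm)
  refine ⟨hck, hkl, hreg, ?_, ?_, ?_, ?_, ?_⟩
  · intro S F hS hF
    rcases lt_or_ge #S k with hSk | hSk
    · have h4 := hF Set.univ (by rw [mk_univ]; exact hSk)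
      have h5 : (fun X => X ∩ (Set.univ : Set S)) '' F = F := by
        simp
      rw [h5] at h4
      exact h4.trans hkl
    · exact key _ (hKU k S F hk0 hSk (h3 _ hSk hS) hF)
  · intro τ θ hτ hθ hρ
    rcases lt_or_ge τ k with hτk | hτk
    · exact (hρ τ hτk).trans hkl
    · exact key _ (hPW k τ θ hk0 hτk hθ hρ (h3 _ hτk hτ))
  · intro hlim c hc
    rcases lt_or_ge c k with hck' | hck'
    · exact (hlim c hck').trans hkl
    · exact key _ (hLS k c hk0 hck' hlim (h3 _ hck' hc))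
  · intro hlim c hc
    rcases lt_or_ge c k with hck' | hck'
    · exact (hlim c hck').trans hkl
    · exact key _ (hSL k c hk0 hck' hlim (h3 _ hck' hc))
  · intro hs
    exact h2 (hSQ k l hk (lt_of_le_of_lt aleph0_le_continuum hck) hreg hkl h3 hs)

theorem below_winacc (hDM : StDM.{u}) (hKU : StKU.{u}) (hPW : StPW.{u}) (hSL : StSL.{u})
    (hLS : StLS.{u}) (hSG : StSG.{u}) (hSQ : StSQ.{u}) (k l : Cardinal.{u}) (hk : WInacc k)
    (h : k ≤ l) (hno : ∀ c, k < c → c ≤ l → ¬ WInacc c) : NegRel l k := by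
  by_contra hcon
  obtain ⟨l₀, h0, h1⟩ := exists_least k l h hcon
  obtain ⟨-, h2, h3, -, -, h4, -⟩ := least_props hDM hKU hPW hSL hLS hSG hSQ k l₀ hk.1 h1
  exact hno l₀ h2 h0 ⟨h3, h4 hk.2⟩

theorem below_sinacc (hDM : StDM.{u}) (hKU : StKU.{u}) (hPW : StPW.{u}) (hSL : StSL.{u})
    (hLS : StLS.{u}) (hSG : StSG.{u}) (hSQ : StSQ.{u}) (k l : Cardinal.{u}) (hk : SInacc k)
    (h : k ≤ l) (hno : ∀ c, k < c → c ≤ l → ¬ SInacc c) : NegRel l k := by
  by_contra hcon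
  obtain ⟨l₀, h0, h1⟩ := exists_least k l h hcon
  obtain ⟨-, h2, h3, -, -, -, h4, -⟩ := least_props hDM hKU hPW hSL hLS hSG hSQ k l₀ hk.1 h1
  exact hno l₀ h2 h0 ⟨h3, h4 hk.2⟩

theorem square_step (hDM : StDM.{u}) (hKU : StKU.{u}) (hPW : StPW.{u}) (hSL : StSL.{u})
    (hLS : StLS.{u}) (hSG : StSG.{u}) (hSQ : StSQ.{u}) (hST : StST.{u})
    (k l : Cardinal.{u}) (hk : k.IsRegular)
    (h : k ≤ l) (hno : ∀ c, k < c → c ≤ l → ¬ WInacc c)
    (hsq : ∀ τ, k ≤ τ → τ < l → (∀ θ, ℵ₀ ≤ θ → (∀ ρ < k, ρ ^ θ < k) → τ ^ θ = τ) → Square τ) :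
    NegRel l k := by
  by_contra hcon
  obtain ⟨l₀, h0, h1⟩ := exists_least k l h hcon
  obtain ⟨-, h2, h3, -, h4, -, -, h5⟩ := least_props hDM hKU hPW hSL hLS hSG hSQ k l₀ hk h1
  have h6 : ¬ ∀ c < l₀, Order.succ c < l₀ := fun h6 => hno l₀ h2 h0 ⟨h3, h6⟩
  push Not at h6
  obtain ⟨τ, hτ, hτ'⟩ := h6
  have hl : l₀ = Order.succ τ := le_antisymm hτ' (Order.succ_le_of_lt hτ)
  have hkτ : k ≤ τ := by rw [hl] at h2; exact Order.lt_succ_iff.1 h2
  have hτl : τ < l := lt_of_lt_of_le hτ h0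
  apply h5
  rw [hl]
  apply hST k τ hk.aleph0_le (hk.aleph0_le.trans hkτ)
  apply hsq τ hkτ hτl
  intro θ hθ hρ
  have h7 := h4 τ θ hτ hθ hρ
  rw [hl] at h7
  exact le_antisymm (Order.lt_succ_iff.1 h7)
    (self_le_power _ (one_le_aleph0.trans hθ))

end Pool.Agent.Helper83.SU
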