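import Pool.Agent.Helper83.SU.Final
import Pool.Agent.Helper13.SU.M_OT
import Pool.Agent.Helper15.SU.M_PA
import Pool.Agent.Helper29.SU.M_S3
import Pool.Agent.Helper36.SU.M_NR
import Pool.Agent.Helper39.SU.M_PW
import Pool.Agent.Helper40.SU.M_LS
import Pool.Agent.Helper42.SU.M_S2
import Pool.Agent.Helper51.SU.M_RN
import Pool.Agent.Helper60.SU.M_KU
import Pool.Agent.Helper67.SU.M_SL
import Pool.Agent.Helper73.SU.M_SG
import Pool.Agent.Helper80.SU.M_DM
import Pool.Agent.Helper81.SU.M_ST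
import Pool.Agent.Helper85.SU.M_SQ
import Pool.Agent.Helper89.SU.M_MG
import Pool.Agent.Helper91.SU.M_S1
import Pool.Agent.Helper97.SU.M_CB

/-! Project SU without hypotheses. -/

set_option autoImplicit false

namespace Pool.Agent.Helper83.SU
open Cardinal Set Pool.Agent.Helper83.CK
universe u

theorem tNR : StNR.{u} := Pool.Agent.Helper36.SU.mNR
theorem tRN : StRN.{u} := Pool.Agent.Helper51.SU.mRN
theorem tMG : StMG.{u} := Pool.Agent.Helper89.SU.mMG
theorem tDM : StDM.{u} := Pool.Agent.Helper80.SU.mDM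
theorem tKU : StKU.{u} := Pool.Agent.Helper60.SU.mKU tNR tRN tMG tDM
theorem tPW : StPW.{u} := Pool.Agent.Helper39.SU.mPW tKU
theorem tSL : StSL.{u} := Pool.Agent.Helper67.SU.mSL tKU
theorem tLS : StLS.{u} := Pool.Agent.Helper40.SU.mLS tNR tRN tMG
theorem tPA : StPA.{u} := Pool.Agent.Helper15.SU.mPA tNR
theorem tSG : StSG.{u} := Pool.Agent.Helper73.SU.mSG tNR tRN tMG tPA
theorem tS1 : StS1.{u} := Pool.Agent.Helper91.SU.mS1
theorem tS2 : StS2.{u} := Pool.Agent.Helper42.SU.mS2 tS1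
theorem tS3 : StS3.{u} := Pool.Agent.Helper29.SU.mS3
theorem tOT : StOT.{u} := Pool.Agent.Helper13.SU.mOT
theorem tCB : StCB.{u} := Pool.Agent.Helper97.SU.mCB tOT
theorem tSQ : StSQ.{u} := Pool.Agent.Helper85.SU.mSQ tRN tMG tPA tS1 tS2 tS3 tOT tCB
theorem tST : StST.{u} := Pool.Agent.Helper81.SU.mST tOT

theorem least_succ (k : Cardinal.{u}) (hk : ℵ₀ ≤ k) (h : ¬ NegRel (Order.succ k) k) :
    Least (Order.succ k) k := by
  refine ⟨Order.le_succ k, h, fun l' h1 h2 => ?_⟩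
  have h3 : l' = k := le_antisymm (Order.lt_succ_iff.1 h2) h1
  rw [h3]
  exact negRel_self k hk

theorem kurepa_succ (k : Cardinal.{u}) (hk : k.IsRegular) (S : Type u) (F : Set (Set S))
    (hS : #S = k) (hF : ∀ B : Set S, #B < k → #((fun X => X ∩ B) '' F) < k) (h : k < #F) :
    NegRel (Order.succ k) k := by
  by_contra hcon
  obtain ⟨-, -, -, h4, -⟩ := least_props tDM tKU tPW tSL tLS tSG tSQ k (Order.succ k) hk
    (least_succ k hk.aleph0_le hcon)
  have h5 := h4 S F (by rw [hS]; exact Order.lt_succ k) hF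
  exact absurd h5 (not_lt.2 (Order.succ_le_of_lt h))

theorem square_succ (k : Cardinal.{u}) (hk : k.IsRegular) (h : Square k) :
    NegRel (Order.succ k) k := by
  by_contra hcon
  obtain ⟨-, -, -, -, -, -, -, h4⟩ := least_props tDM tKU tPW tSL tLS tSG tSQ k (Order.succ k) hk
    (least_succ k hk.aleph0_le hcon)
  exact h4 (tST k k hk.aleph0_le hk.aleph0_le h)

theorem pow_lt_succ_continuum (ρ : Cardinal.{u}) (h : ρ < Order.succ 𝔠) :
    ρ ^ (ℵ₀ : Cardinal.{u}) < Order.succ 𝔠 := by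
  have h1 : ρ ≤ 𝔠 := Order.lt_succ_iff.1 h
  calc ρ ^ (ℵ₀ : Cardinal.{u}) ≤ 𝔠 ^ (ℵ₀ : Cardinal.{u}) := power_le_power_right h1
    _ = 𝔠 := continuum_power_aleph0
    _ < Order.succ 𝔠 := Order.lt_succ _

end Pool.Agent.Helper83.SU
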