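import Pool.Agent.Helper83.CK.All

/-!
Project SU (MP_f663dd_lc): the least cardinal `l ≥ k` with `l → [k]^ω_k` (`k` regular).
It is `> k`, regular, closed under powers and Kurepa families, a limit if `k` is a limit, and it
carries no coherent club sequence with small order types (`□_τ` fails if it is `τ⁺`).
Uses the library of project CK (`Pool.Agent.Helper83.CK.All`): `NegRel l k` if and only if
`¬ Chang K`.
-/

set_option autoImplicit false

namespace Pool.Agent.Helper83.SU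
open Cardinal Set Pool.Agent.Helper83.CK
universe u

/-- `Sm k K L`: for some family of continuum many operations of arity omega every closed set `A`
with `|A ∩ K| < k` has `|A ∩ L| < k`. -/
def Sm {α : Type u} (k : Cardinal.{u}) (K L : Set α) : Prop :=
  ∃ g : (ℕ → Bool) → (ℕ → α) → α, ∀ A : Set α, Cl g A → #(A ∩ K : Set α) < k →
    #(A ∩ L : Set α) < k

/-- `γ` is a limit point of `X` (in particular `γ` is not the least element). -/
def Lim {α : Type u} [LinearOrder α] (γ : α) (X : Set α) : Prop :=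
  (∃ ξ, ξ < γ) ∧ ∀ ξ < γ, ∃ c ∈ X, ξ < c ∧ c < γ

/-- The order type of a set `X`; so `ot (Iio a)` is the ordinal that the element `a` stands for. -/
noncomputable def ot {α : Type u} [LinearOrder α] [WellFoundedLT α] (X : Set α) : Ordinal.{u} :=
  Ordinal.type (Subrel (· < · : α → α → Prop) (· ∈ X))

/-- A square-like sequence on the initial ordinal of `l`: coherent unbounded sets `C δ ⊆ δ` for all limit `δ`,
of order type less than `δ` for all `δ > b` that have a cofinal subset of size `k`. -/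
def Sq (k l : Cardinal.{u}) : Prop :=
  ∃ (C : l.ord.ToType → Set l.ord.ToType) (b : l.ord.ToType),
    (∀ δ, Lim δ univ → C δ ⊆ Iio δ ∧ Lim δ (C δ) ∧ ∀ γ < δ, Lim γ (C δ) → C γ = C δ ∩ Iio γ) ∧
    (∀ δ, b < δ → (∃ X ⊆ Iio δ, #X = k ∧ ∀ ξ < δ, ∃ x ∈ X, ξ < x) → ot (C δ) < ot (Iio δ))

/-- Jensen's `□_τ`: closed unbounded sets `C δ ⊆ δ` for all limit `δ < τ⁺`, of order type at most `τ`, with
`C γ = C δ ∩ γ` for all limit points `γ` of `C δ`. -/
def Square (τ : Cardinal.{u}) : Prop :=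
  ∃ C : (Order.succ τ).ord.ToType → Set (Order.succ τ).ord.ToType,
    ∀ δ, Lim δ univ → C δ ⊆ Iio δ ∧ Lim δ (C δ) ∧ ot (C δ) ≤ τ.ord ∧
      ∀ γ < δ, Lim γ (C δ) → γ ∈ C δ ∧ C γ = C δ ∩ Iio γ

/-- MODULE NR. PROOF. By `negRel_iff` there is a colouring for `#L .ord.ToType`; with a bijection `e : L ≃ (#L).ord.ToType`
(`mk_ord_toType`, `Cardinal.eq`) `f' t = f (e '' t)` shows `Neg L k.ord.ToType` (type `L`). Let `K' : Set L = {x | x.1 ∈ K}`,
`#K' = #K = k` (`K ⊆ L`). `Pool.Agent.Helper83.CK.equiv_types L k.ord.ToType` gives `¬ Chang K'`: a family `g'` on the type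
`L` such that every closed `A'` with `k ≤ #A'` has `¬ #(A' ∩ K') < k`. Put `g i x = g' i (fun n => ⟨x n, _⟩)` if all `x n ∈ L`,
`g i x = x 0` otherwise. If `A` is closed under `g` then `A' = {x : L | x.1 ∈ A}` is closed under `g'`, `#(A' ∩ K') = #(A ∩ K)`
(`K ⊆ L`) and `#A' = #(A ∩ L)`. -/
def StNR : Prop := ∀ (α : Type u) (k : Cardinal.{u}) (K L : Set α), ℵ₀ ≤ k → K ⊆ L → #K = k →
  NegRel #L k → Sm k K L

/-- MODULE RN. PROOF. `Sm k K univ` says `¬ Chang K` (`#K = k`), so `Neg α k.ord.ToType` by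
`Pool.Agent.Helper83.CK.equiv_types`; transport with a bijection `α ≃ (#α).ord.ToType` (`negRel_iff`). -/
def StRN : Prop := ∀ (α : Type u) (k : Cardinal.{u}) (K : Set α), ℵ₀ ≤ k → #K = k →
  Sm k K univ → NegRel #α k

/-- MODULE MG. PROOF. There is a surjection `e : (ℕ → Bool) → ℕ × (ℕ → Bool)` (equal cardinalities `𝔠`; or `y` is sent to
(the least `n` with `y n = true` or `0`, the rest `m ↦ y (n + 1 + m)`)). `g y = G (e y).1 (e y).2`. -/
def StMG : Prop := ∀ (α : Type u) (G : ℕ → (ℕ → Bool) → (ℕ → α) → α),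
  ∃ g : (ℕ → Bool) → (ℕ → α) → α, ∀ A : Set α, Cl g A ↔ ∀ n, Cl (G n) A

/-- MODULE DM. PROOF. Take an injection `ι : l'.ord.ToType → l.ord.ToType` (cardinalities) and `f' t = f (ι '' t)`. If
`#X = k` then `#(ι '' X) = k`; for a colour `c` there is `t ∈ Om (ι '' X)` with `f t = c`; `t = ι '' t'` for
`t' = {a ∈ X | ι a ∈ t}`, `#t' = ℵ₀`. -/
def StDM : Prop := ∀ k l' l : Cardinal.{u}, l' ≤ l → NegRel l k → NegRel l' k

/-- MODULE KU (Kurepa families), from `StNR`, `StRN`, `StMG`, `StDM`. PROOF. If `#F ≤ #S` use `StDM`. Let `#S ≤ #F`. Let `α = F` (the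
type of the elements of `F`), `j : S → α` injective, `L = range j`, `K ⊆ L` with `#K = k` (`Cardinal.le_mk_iff_exists_subset`). `Sm k K L` by
`StNR` (`#L = #S`). Let `d x = j s` for some `s` that lies in exactly one of the sets `x 0`, `x 1`, if `x 0 ≠ x 1`, `d x = x 0` otherwise. Let `g` be the
merged family (`StMG`). Let `A` be closed, `#(A ∩ K) < k`. Then `#(A ∩ L) < k`; `B = {s | j s ∈ A}` has `#B ≤ #(A ∩ L) < k`. The map `X ↦ X ∩ B` is
injective on `A`: for `X ≠ Y` in `A` the point `s` with `d (X, Y, Y, ..) = j s` lies in `B` and in exactly one of `X`, `Y`. So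
`#A ≤ #((fun X => X ∩ B) '' F) < k`: `Sm k K univ`, and `StRN`. -/
def StKU : Prop := ∀ (k : Cardinal.{u}) (S : Type u) (F : Set (Set S)), ℵ₀ ≤ k → k ≤ #S → NegRel #S k →
  (∀ B : Set S, #B < k → #((fun X => X ∩ B) '' F) < k) → NegRel #F k

/-- MODULE PW (powers), from `StKU`. PROOF. Let `Θ`, `T` be types with `#Θ = θ`, `#T = τ` (`Quotient.out` or `θ.ord.ToType`), `S = Θ × T`, `#S = θ * τ = τ`
(`2 ^ θ < k` so `θ < k ≤ τ`; `Cardinal.mul_eq_right`..), `F` = the set of the graphs `{(t, f t) | t}` of all `f : Θ → T`, `#F = τ ^ θ`. For `B` with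
`#B < k` the trace of the graph of `f` on `B` is determined by the function `φ : Θ → Option {b | b ∈ B}`, `φ t = (t, f t)` if it is in `B`, `none` otherwise; so the number of
traces is at most `(#B + 1) ^ θ < k` (`#B + 1 < k` as `k` is infinite). -/
def StPW : Prop := ∀ k τ θ : Cardinal.{u}, ℵ₀ ≤ k → k ≤ τ → ℵ₀ ≤ θ → (∀ ρ < k, ρ ^ θ < k) → NegRel τ k →
  NegRel (τ ^ θ) k

/-- MODULE SL (strong limits), from `StKU`. PROOF. `S` with `#S = τ`, `F = univ : Set (Set S)`, `#F = 2 ^ τ`; the traces on `B` are subsets of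
`B`, so there are at most `2 ^ #B < k` of them. -/
def StSL : Prop := ∀ k τ : Cardinal.{u}, ℵ₀ ≤ k → k ≤ τ → (∀ ρ < k, 2 ^ ρ < k) → NegRel τ k →
  NegRel (2 ^ τ) k

/-- MODULE LS (limit cardinals), from `StNR`, `StRN`, `StMG`. PROOF. If `k = ℵ₀` (or `k ≤ 𝔠`) the claim holds by `Pool.Agent.Helper83.CK.tS`
(and `negRel_iff`). Let `ℵ₀ < k`. Let `α` be a type with `#α = succ τ`, `L ⊆ α` with `#L = τ`, `K ⊆ L` with `#K = k`. `Sm k K L` by `StNR`; `h` from
`Pool.Agent.Helper83.CK.tP α L univ`: if `A` is closed under `h` then `#A ≤ succ (max ℵ₀ #(A ∩ L))`. Merge the two (`StMG`; `h` as the constant family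
`fun _ => h`): if `A` is closed and `#(A ∩ K) < k` then `#(A ∩ L) < k`, `#A ≤ succ (max ℵ₀ #(A ∩ L)) < k`. So `Sm k K univ`, and `StRN`. -/
def StLS : Prop := ∀ k τ : Cardinal.{u}, ℵ₀ ≤ k → k ≤ τ → (∀ c < k, Order.succ c < k) → NegRel τ k →
  NegRel (Order.succ τ) k

/-- MODULE PA, from `StNR`. PROOF. For `b` let `L_b = K ∪ Iio b`; `k ≤ #L_b < l` (`#(Iio b) < l`: `Cardinal.mk_Iio_ord_toType`, `l` infinite), so
`NegRel #L_b k` and `StNR` gives a family `g_b` for `Sm k K L_b`. Let `g i x = g_{x 0} i (fun n => x (n + 1))`. If `A` is closed under `g` and `b ∈ A`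
then `A` is closed under `g_b` (put `b` in front of the sequence). -/
def StPA : Prop := ∀ (k l : Cardinal.{u}) (K : Set l.ord.ToType), ℵ₀ ≤ k → k < l → #K = k →
  (∀ l', k ≤ l' → l' < l → NegRel l' k) →
  ∃ g : (ℕ → Bool) → (ℕ → l.ord.ToType) → l.ord.ToType, ∀ A : Set l.ord.ToType, Cl g A →
    #(A ∩ K : Set l.ord.ToType) < k → ∀ b ∈ A, #(A ∩ Iio b : Set l.ord.ToType) < k

/-- MODULE SG (singular cardinals), from `StNR`, `StRN`, `StMG`, `StPA`. PROOF. Let `α = l.ord.ToType`, `K ⊆ α`, `#K = k`. As `l` is not regular (and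
infinite) there is an unbounded `S ⊆ α` (`∀ a, ∃ s ∈ S, a < s`; `α` has no maximum) with `#S < l`. `L = K ∪ S` has `k ≤ #L < l`, so `Sm k K L` by `StNR`. Let `s a ∈ S` with
`a < s a`. Merge (`StMG`) the family of `StPA`, that of `Sm k K L` and the operation `x ↦ s (x 0)`. Let `A` be closed, `#(A ∩ K) < k`. Then
`#(A ∩ S) < k` and `A ⊆ ⋃_{m ∈ A ∩ S} (A ∩ Iio m)` (`a < s a ∈ A ∩ S`), fewer than `k` sets of size `< k`; `k` is regular, so `#A < k`. So `Sm k K univ`, and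
`StRN`. -/
def StSG : Prop := ∀ k l : Cardinal.{u}, k.IsRegular → k < l → ¬ l.IsRegular →
  (∀ l', k ≤ l' → l' < l → NegRel l' k) → NegRel l k

/-- MODULE S1. PROOF. Otherwise `∀ a ∈ A, ∃ x ∈ X, a ≤ x`, so `A ⊆ ⋃_{x ∈ X} (A ∩ Iio x) ∪ {x}`, fewer than `k` sets of size `< k`; `k` is regular, so
`#A < k`. -/
def StS1 : Prop := ∀ (α : Type u) [LinearOrder α] [WellFoundedLT α] (k : Cardinal.{u}) (A : Set α),
  k.IsRegular → k ≤ #A → (∀ b ∈ A, #(A ∩ Iio b : Set α) < k) →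
  ∀ X ⊆ A, #X < k → ∃ a ∈ A, ∀ x ∈ X, x < a

/-- MODULE S2, from `StS1`. PROOF. Take `X ⊆ A` with `#X = k`. `X` is cofinal in `A`: for `a ∈ A` some `x ∈ X` has `a ≤ x`, otherwise `X ⊆ A ∩ Iio a`. As `#X = k < l` and `l` is regular
there is an upper bound of `X` (for instance: otherwise `α = ⋃_{x ∈ X} Iic x`, `#(Iic x) < l`), and a strict one (no maximum). So there is a strict upper bound of `A`; let `δ` be the least one. For `ξ < δ` there is `a ∈ A` with `ξ ≤ a`,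
and some `a' ∈ A` with `a < a'` by `StS1` for `{a}`. `X` is cofinal in `δ`: for `ξ < δ` take `a ∈ A`, `ξ < a`, and `x ∈ X`, `a ≤ x`. -/
def StS2 : Prop := ∀ (k l : Cardinal.{u}) (A : Set l.ord.ToType), k.IsRegular → l.IsRegular → k < l →
  k ≤ #A → (∀ b ∈ A, #(A ∩ Iio b : Set l.ord.ToType) < k) →
  ∃ δ : l.ord.ToType, (∀ a ∈ A, a < δ) ∧ (∀ ξ < δ, ∃ a ∈ A, ξ < a) ∧
    ∃ X ⊆ Iio δ, #X = k ∧ ∀ ξ < δ, ∃ x ∈ X, ξ < x

/-- MODULE S3. PROOF. Let `ξ < δ`. Choose `a 0 ∈ A` with `ξ < a 0`, and given `a n ∈ A` (so `a n < δ`) some `c n ∈ D` with `a n < c n < δ` and `a (n + 1) ∈ A` with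
`c n < a (n + 1)`. The set `X = range a ⊆ A` is countable, so `#X < k`, and there is `a* ∈ A` with `a n < a*` for all `n`. Let `γ` be the least element that is `> a n` for all
`n`: `γ ≤ a* < δ`. For `ξ' < γ` there is `n` with `ξ' ≤ a n < c n < a (n + 1) < γ`: so `γ` is a limit point of `A` and of `D`. -/
def StS3 : Prop := ∀ (α : Type u) [LinearOrder α] [WellFoundedLT α] (k : Cardinal.{u}) (A D : Set α) (δ : α),
  ℵ₀ < k → (∀ X ⊆ A, #X < k → ∃ a ∈ A, ∀ x ∈ X, x < a) → (∀ a ∈ A, a < δ) → (∀ ξ < δ, ∃ a ∈ A, ξ < a) →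
  (∀ ξ < δ, ∃ c ∈ D, ξ < c ∧ c < δ) → ∀ ξ < δ, ∃ γ < δ, ξ < γ ∧ Lim γ D ∧ Lim γ A

/-- MODULE OT (order types). PROOF. (1) `Ordinal.type_le_iff'` with the inclusion. (3) `c` is the element of `X` of index `η` (`Ordinal.enum`, `Ordinal.typein_surj`),
`X ∩ Iio c` is the initial segment of `X` below `c` (`Ordinal.typein` / `Ordinal.type_subrel`). (2) `X ∩ Iio ξ` embeds in the initial segment of `X ∩ Iio ξ'` below `c`. (4) from (2), `X = univ`
and (1). (5) if `o < ot (Iio a)` use (3) for `X = Iio a` (`Iio a ∩ Iio c = Iio c`), otherwise `b = a`. -/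
def StOT : Prop := ∀ (α : Type u) [LinearOrder α] [WellFoundedLT α],
  (∀ X Y : Set α, X ⊆ Y → ot X ≤ ot Y) ∧
  (∀ (X : Set α) (ξ c ξ' : α), c ∈ X → ξ ≤ c → c < ξ' → ot (X ∩ Iio ξ) < ot (X ∩ Iio ξ')) ∧
  (∀ (X : Set α) (η : Ordinal.{u}), η < ot X → ∃ c ∈ X, ot (X ∩ Iio c) = η) ∧
  (∀ a b : α, ot (Iio a) < ot (Iio b) ↔ a < b) ∧
  (∀ (a : α) (o : Ordinal.{u}), o ≤ ot (Iio a) → ∃ b : α, ot (Iio b) = o)

/-- MODULE CB (the combinatorial core), from `StOT`. Let `E = {γ < δ | Lim γ (C δ) ∧ Lim γ A}`. PROOF. Step 1. Let `γ ∈ E` and `β` the least element of `A` with `γ ≤ β` (hypothesis 4). Then `C γ = C β ∩ Iio γ`. This is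
clear if `β = γ` (`γ` is a limit, so `C γ ⊆ Iio γ`). Let `γ < β`. `β` is a limit: otherwise there is `p ∈ A`, `γ ≤ p < β` (hypothesis 7), against the minimality. For `ξ < γ` take
`a ∈ A`, `ξ < a < γ`; there is `c ∈ C β ∩ A` with `a < c` (hypothesis 6), `c < β` (`C β ⊆ Iio β`), so `c < γ` by minimality. So `Lim γ (C β)`, and `C γ = C β ∩ Iio γ` by hypothesis 5.
Step 2. For `γ ∈ E`, `C γ = C δ ∩ Iio γ`. If `η < ot (C γ)` there is `t ∈ A ∩ Iio b` with `η < ot (Iio t) ≤ ot (C γ)`: by `StOT` (3) `η = ot (C γ ∩ Iio c)` with `c ∈ C γ`, `c < γ`; take `a ∈ A` with `c < a < γ` and `t = o β a` (`β` from Step 1):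
`ot (Iio t) = ot (C β ∩ Iio a) = ot (C γ ∩ Iio a) > η` (`StOT` (2)), and `≤ ot (C γ) ≤ ot (C δ) < ot (Iio b)`, so `t < b`.
Step 3. For `γ < γ'` in `E`: `ot (C γ) < ot (C γ')` (`c ∈ C δ` with `γ < c < γ'`, `StOT` (2)). So (hypothesis 10 gives a larger `γ' ∈ E`, and Step 2 with `η = ot (C γ)`) `ψ γ` := the least
`t ∈ A ∩ Iio b` with `ot (C γ) < ot (Iio t)` exists for every `γ ∈ E`, and `ψ` is injective: if `γ < γ'`, Step 2 for `γ'` and `η = ot (C γ)` gives `t` with `ot (C γ) < ot (Iio t) ≤ ot (C γ')`, so `ψ γ ≤ t < ψ γ'`.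
So `#E ≤ #(A ∩ Iio b) < k`. Step 4. For `γ ∈ E` choose `a γ ∈ A`, `γ < a γ`. `{a γ : γ ∈ E} ⊆ A` has size `< k`, so is bounded by some `a ∈ A` (hypothesis 1); there is `γ ∈ E` with `a < γ < a γ < a`, a contradiction. -/
def StCB : Prop := ∀ (α : Type u) [LinearOrder α] [WellFoundedLT α] (k : Cardinal.{u}) (A : Set α)
  (C : α → Set α) (δ b : α) (o : α → α → α),
  (∀ X ⊆ A, #X < k → ∃ a ∈ A, ∀ x ∈ X, x < a) →
  (∀ b ∈ A, #(A ∩ Iio b : Set α) < k) →
  (∀ a ∈ A, a < δ) → (∀ ξ < δ, ∃ a ∈ A, ξ < a) →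
  (∀ δ, Lim δ univ → C δ ⊆ Iio δ ∧ ∀ γ < δ, Lim γ (C δ) → C γ = C δ ∩ Iio γ) →
  (∀ β ∈ A, Lim β univ → ∀ ξ ∈ A, ξ < β → ∃ c ∈ C β, c ∈ A ∧ ξ < c) →
  (∀ β ∈ A, ¬ Lim β univ → ∀ γ < β, ∃ p ∈ A, γ ≤ p ∧ p < β) →
  (∀ β ∈ A, ∀ ξ ∈ A, o β ξ ∈ A ∧ ot (Iio (o β ξ)) = ot (C β ∩ Iio ξ)) →
  (b ∈ A ∧ ot (C δ) < ot (Iio b)) →
  (∀ ξ < δ, ∃ γ < δ, ξ < γ ∧ Lim γ (C δ) ∧ Lim γ A) → Lim δ univ → False

/-- MODULE SQ (the square step), from `StRN`, `StMG`, `StPA`, `StS1`, `StS2`, `StS3`, `StOT`, `StCB`. PROOF. Let `α = l.ord.ToType`, `K ⊆ α`, `#K = k`, `C`, `b₀` from `Sq k l`. Operations: the family of `StPA`; the constant `b₀`;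
`x ↦ m (x 0) (x 1)` where for limit `β` and `ξ < β`, `m β ξ` is some `c ∈ C β` with `ξ < c` (`Lim β (C β)`), and `ξ` otherwise; `x ↦ p (x 0)` where for `β` not a limit and not the least element `p β` is the
predecessor (`p β < β` and nothing lies strictly between them: negate `Lim β univ`), `β` otherwise; `x ↦ o (x 0) (x 1)` where `o β ξ` is the element with `ot (Iio (o β ξ)) = ot (C β ∩ Iio ξ)` (`StOT` (5), as `ot (C β ∩ Iio ξ) ≤ ot (Iio ξ)` by (1)). Merge them (`StMG`).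
Let `A` be closed, `#(A ∩ K) < k`; suppose `k ≤ #A`. By `StPA` and `StS1`, `StS2` there is `δ`; `Lim δ univ` (`b₀ ∈ A`, `b₀ < δ`, so `δ` is not the least element). By `Sq`: `ot (C δ) < ot (Iio δ)`; take `η` with `ot (Iio η) = ot (C δ)` (`StOT` (5)), `η < δ` ((4)), and
`b ∈ A` with `η < b`. `StS3` with `D = C δ` (`Lim δ (C δ)`). `StCB` gives a contradiction. So `Sm k K univ`, and `StRN`. -/
def StSQ : Prop := ∀ k l : Cardinal.{u}, k.IsRegular → ℵ₀ < k → l.IsRegular → k < l →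
  (∀ l', k ≤ l' → l' < l → NegRel l' k) → Sq k l → NegRel l k

/-- MODULE ST, from `StOT`. PROOF. The sequence of `Square τ`; `b` is the element of `(succ τ).ord.ToType` with `ot (Iio b) = τ.ord` (there is one, as `τ.ord < (succ τ).ord`: `Ordinal.enum` or
`Ordinal.ToType.mk`, `ot (Iio b) = typein b`). For `b < δ` that has a cofinal subset of size `k ≥ 1`, `δ` is a limit (`Lim δ univ`), so `ot (C δ) ≤ τ.ord = ot (Iio b) < ot (Iio δ)` by `StOT` (4). -/
def StST : Prop := ∀ k τ : Cardinal.{u}, ℵ₀ ≤ k → ℵ₀ ≤ τ → Square τ → Sq k (Order.succ τ)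

end Pool.Agent.Helper83.SU
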